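import Mathlib
import Pool.Agent.Y911.RR.Rand

/-!
Averages over the ideals of functions of the part of a set of primes which does not divide the
ideal.
-/

set_option autoImplicit false

namespace Pool.Agent.Y911.US

open NumberField IsDedekindDomain Finset Pool.Agent.H691R3 Pool.Agent.TH876.Loc
open Pool.Agent.Y911.RR

variable {K : Type} [Field K] [NumberField K]

variable (K) in
/-- the average over the nonzero ideals of norm at most `X` -/
noncomputable def av (X : ℕ) (f : Ideal (𝓞 K) → ℝ) : ℝ := (∑ n ∈ ids K X, f n) / (ids K X).card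

theorem av_mono {X : ℕ} {f g : Ideal (𝓞 K) → ℝ} (h : ∀ n ∈ ids K X, f n ≤ g n) :
    av K X f ≤ av K X g :=
  div_le_div_of_nonneg_right (sum_le_sum h) (Nat.cast_nonneg _)

theorem av_sum {ι : Type*} {X : ℕ} (J : Finset ι) (f : ι → Ideal (𝓞 K) → ℝ) :
    av K X (fun n => ∑ i ∈ J, f i n) = ∑ i ∈ J, av K X (f i) := by
  unfold av
  rw [sum_comm, sum_div]

theorem av_mul {X : ℕ} (f : Ideal (𝓞 K) → ℝ) (c : ℝ) :
    av K X (fun n => f n * c) = av K X f * c := by
  unfold av
  rw [← sum_mul, div_mul_eq_mul_div]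

theorem av_div {X : ℕ} (hX : 1 ≤ X) (A : Finset (Pr K)) :
    av K X (fun n => ind (∀ v ∈ A, n ≤ v.asIdeal)) ≤ idC K * (nn A)⁻¹ := by
  unfold av
  rw [card_div, ← one_div, ← Nm_cast]
  exact idC_spec X (Nm A) hX (Nm_pos A)

open Classical in
/-- the primes of `s` outside `S` which do not divide `n` -/
noncomputable def rs (S : Finset (Pr K)) (n : Ideal (𝓞 K)) (s : Finset (Pr K)) : Finset (Pr K) :=
  s.filter fun v => ¬ (v ∈ S ∨ n ≤ v.asIdeal)

theorem rs_sub (S : Finset (Pr K)) (n : Ideal (𝓞 K)) (s : Finset (Pr K)) : rs S n s ⊆ s := by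
  classical
  unfold rs
  exact filter_subset _ _

/-- **The averages.** -/
theorem av_rest (S : Finset (Pr K)) {θ : ℝ} {X : ℕ} (hX : 1 ≤ X) (s : Finset (Pr K))
    (c : Finset (Pr K) → Prop) {W : ℝ} (hW0 : 0 ≤ W)
    (hW : ∀ A : Finset (Pr K), ∀ R : Finset (Pr K), nn s = nn A * nn R → c R →
      (nn A)⁻¹ * (nn R) ^ (-θ) ≤ W) :
    av K X (fun n => ind (c (rs S n s)) * (nn (rs S n s)) ^ (-θ)) ≤
      idC K * nn S * (2 ^ s.card * W) := by
  classical
  have hS := nn_pos S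
  have h1 : ∀ n ∈ ids K X, ind (c (rs S n s)) * (nn (rs S n s)) ^ (-θ) ≤
      ∑ A ∈ s.powerset, ind (∀ v ∈ A \ S, n ≤ v.asIdeal) *
        (ind (c (s \ A)) * (nn (s \ A)) ^ (-θ)) := by
    intro n _
    have h2 : s \ rs S n s ∈ s.powerset := mem_powerset.2 sdiff_subset
    refine le_trans (le_of_eq ?_) (single_le_sum (f := fun A : Finset (Pr K) =>
      ind (∀ v ∈ A \ S, n ≤ v.asIdeal) * (ind (c (s \ A)) * (nn (s \ A)) ^ (-θ)))
      (fun A _ => mul_nonneg (ind_nonneg _) (ind_mul_nonneg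
        (Real.rpow_nonneg (nn_pos _).le _) _)) h2)
    have h3 : s \ (s \ rs S n s) = rs S n s := by
      rw [Finset.sdiff_sdiff_eq_self (rs_sub S n s)]
    have h4 : ∀ v ∈ (s \ rs S n s) \ S, n ≤ v.asIdeal := by
      intro v hv
      rw [mem_sdiff, mem_sdiff] at hv
      obtain ⟨⟨hv1, hv2⟩, hv3⟩ := hv
      by_contra h5
      apply hv2
      unfold rs
      rw [mem_filter]
      exact ⟨hv1, fun h => h.elim hv3 h5⟩
    simp only [h3, ind_pos h4, one_mul]
  refine (av_mono h1).trans ?_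
  rw [av_sum]
  have h2 : ∀ A ∈ s.powerset, av K X (fun n => ind (∀ v ∈ A \ S, n ≤ v.asIdeal) *
      (ind (c (s \ A)) * (nn (s \ A)) ^ (-θ))) ≤ idC K * nn S * W := by
    intro A hA
    rw [mem_powerset] at hA
    rw [av_mul]
    have hA0 := nn_pos A
    have k1 : (nn (A \ S))⁻¹ ≤ nn S * (nn A)⁻¹ := by
      have k2 : nn A ≤ nn S * nn (A \ S) := by
        have : nn A ≤ nn (S ∪ (A \ S)) := nn_mono (by
          intro v hv
          by_cases h : v ∈ S
          · exact mem_union_left _ h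
          · exact mem_union_right _ (mem_sdiff.2 ⟨hv, h⟩))
        rwa [nn_union Finset.disjoint_sdiff] at this
      have k3 := nn_pos (A \ S)
      rw [← div_eq_mul_inv, le_div_iff₀ hA0, inv_mul_le_iff₀ k3, mul_comm]
      exact k2
    have k4 : nn s = nn A * nn (s \ A) := by
      rw [mul_comm]
      unfold nn
      rw [Finset.prod_sdiff hA]
    have k5 : 0 ≤ ind (c (s \ A)) * (nn (s \ A)) ^ (-θ) :=
      ind_mul_nonneg (Real.rpow_nonneg (nn_pos _).le _) _
    have hC := (idC_pos (K := K)).le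
    calc _ ≤ idC K * (nn (A \ S))⁻¹ * (ind (c (s \ A)) * (nn (s \ A)) ^ (-θ)) :=
          mul_le_mul_of_nonneg_right (av_div hX _) k5
      _ ≤ idC K * (nn S * (nn A)⁻¹) * (ind (c (s \ A)) * (nn (s \ A)) ^ (-θ)) :=
          mul_le_mul_of_nonneg_right (mul_le_mul_of_nonneg_left k1 hC) k5
      _ = idC K * nn S * (ind (c (s \ A)) * ((nn A)⁻¹ * (nn (s \ A)) ^ (-θ))) := by ring
      _ ≤ idC K * nn S * W := by
          refine mul_le_mul_of_nonneg_left ?_ (mul_nonneg hC hS.le)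
          by_cases hc : c (s \ A)
          · rw [ind_pos hc, one_mul]
            exact hW A (s \ A) k4 hc
          · rw [ind_neg hc, zero_mul]
            exact hW0
  refine (sum_le_sum h2).trans (le_of_eq ?_)
  rw [sum_const, card_powerset, nsmul_eq_mul]
  push_cast
  ring

variable (K) in
/-- the proportion -/
noncomputable def prop (X : ℕ) (Q : Set (Ideal (𝓞 K))) : ℝ :=
  ({n | n ∈ ids K X ∧ n ∈ Q}.ncard : ℝ) / (ids K X).card

theorem prop_eq (X : ℕ) (Q : Set (Ideal (𝓞 K))) :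
    prop K X Q = av K X (fun n => ind (n ∈ Q)) := by
  classical
  unfold prop av
  rw [sum_ind]
  congr 2
  rw [← Set.ncard_coe_finset]
  congr 1
  ext n
  simp

theorem markov {X : ℕ} {f : Ideal (𝓞 K) → ℝ} {C δ : ℝ} (hC : 0 < C) (hδ : 0 < δ)
    (hf : ∀ n ∈ ids K X, 0 ≤ f n) (h : av K X f ≤ C) (Q : Set (Ideal (𝓞 K)))
    (hQ : ∀ n ∈ ids K X, n ∈ Q → C / δ ≤ f n) : prop K X Q ≤ δ := by
  have h1 : av K X (fun n => ind (n ∈ Q) * (C / δ)) ≤ av K X f := by
    refine av_mono fun n hn => ?_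
    by_cases hQn : n ∈ Q
    · rw [ind_pos hQn, one_mul]
      exact hQ n hn hQn
    · rw [ind_neg hQn, zero_mul]
      exact hf n hn
  rw [av_mul, ← prop_eq] at h1
  have h2 : prop K X Q * (C / δ) ≤ C := h1.trans h
  rw [mul_div_assoc', div_le_iff₀ hδ] at h2
  nlinarith

end Pool.Agent.Y911.US
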