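import Mathlib
import Pool.Agent.Y911.US.Avg
import Pool.Agent.Y911.RR.Pts

/-!
Counting objects with a small support outside the primes of a random ideal.
-/

set_option autoImplicit false

namespace Pool.Agent.Y911.US

open NumberField IsDedekindDomain Finset Pool.Agent.H691R3 Pool.Agent.TH876.Loc
open Pool.Agent.Y911.RR

variable {K : Type} [Field K] [NumberField K]

theorem core_gen {T : Type} (sp : T → Finset (Pr K)) (S : Finset (Pr K)) {θ : ℝ}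
    (c : T → Finset (Pr K) → Prop) (W : T → ℝ) (hW0 : ∀ t, 0 ≤ W t)
    (hW : ∀ t, ∀ A R : Finset (Pr K), nn (sp t) = nn A * nn R → c t R →
      (nn A)⁻¹ * (nn R) ^ (-θ) ≤ W t) {D : ℝ}
    (hD : ∀ F : Finset T, ∑ t ∈ F, 2 ^ (sp t).card * W t ≤ D) {X : ℕ} (hX : 1 ≤ X)
    (F : Finset T) :
    av K X (fun n => ∑ t ∈ F, ind (c t (rs S n (sp t))) * (nn (rs S n (sp t))) ^ (-θ)) ≤
      idC K * nn S * D := by
  rw [av_sum]
  refine (sum_le_sum fun t _ => av_rest S hX (sp t) (c t) (hW0 t) (hW t)).trans ?_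
  rw [← mul_sum]
  exact mul_le_mul_of_nonneg_left (hD F) (mul_nonneg idC_pos.le (nn_pos S).le)

/-- **Uniform counting for most ideals.** -/
theorem count_gen {T : Type} (sp : T → Finset (Pr K)) (S : Finset (Pr K)) {θ : ℝ}
    (hθ : 0 ≤ θ)
    (c : T → Finset (Pr K) → Prop) (W : T → ℝ) (hW0 : ∀ t, 0 ≤ W t)
    (hW : ∀ t, ∀ A R : Finset (Pr K), nn (sp t) = nn A * nn R → c t R →
      (nn A)⁻¹ * (nn R) ^ (-θ) ≤ W t) {D : ℝ} (hD0 : 0 < D)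
    (hD : ∀ F : Finset T, ∑ t ∈ F, 2 ^ (sp t).card * W t ≤ D) {X : ℕ} (hX : 1 ≤ X)
    {δ : ℝ} (hδ : 0 < δ) :
    prop K X {n | ∃ Y : ℝ, 1 ≤ Y ∧ ∃ G : Finset T,
      (∀ t ∈ G, c t (rs S n (sp t)) ∧ nn (rs S n (sp t)) ≤ Y) ∧
      idC K * nn S * D / δ * Y ^ θ < (G.card : ℝ)} ≤ δ := by
  classical
  have hC0 : 0 < idC K * nn S * D := mul_pos (mul_pos idC_pos (nn_pos S)) hD0
  obtain ⟨Q, hQ⟩ : ∃ Q : Set (Ideal (𝓞 K)), Q = {n | ∃ Y : ℝ, 1 ≤ Y ∧ ∃ G : Finset T,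
      (∀ t ∈ G, c t (rs S n (sp t)) ∧ nn (rs S n (sp t)) ≤ Y) ∧
      idC K * nn S * D / δ * Y ^ θ < (G.card : ℝ)} := ⟨_, rfl⟩
  rw [← hQ]
  have hch : ∀ n : Ideal (𝓞 K), ∃ (Y : ℝ) (G : Finset T), n ∈ Q → 1 ≤ Y ∧
      (∀ t ∈ G, c t (rs S n (sp t)) ∧ nn (rs S n (sp t)) ≤ Y) ∧
      idC K * nn S * D / δ * Y ^ θ < (G.card : ℝ) := by
    intro n
    by_cases hn : n ∈ Q
    · have hn' := hn
      rw [hQ] at hn'
      obtain ⟨Y, hY, G, hG1, hG2⟩ := hn'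
      exact ⟨Y, G, fun _ => ⟨hY, hG1, hG2⟩⟩
    · exact ⟨1, ∅, fun h => absurd h hn⟩
  choose Y G hYG using hch
  obtain ⟨F, hF⟩ : ∃ F : Finset T, F = (ids K X).biUnion G := ⟨_, rfl⟩
  have hterm : ∀ n : Ideal (𝓞 K), ∀ t : T,
      0 ≤ ind (c t (rs S n (sp t))) * (nn (rs S n (sp t))) ^ (-θ) := fun n t =>
    ind_mul_nonneg (Real.rpow_nonneg (nn_pos _).le _) _
  refine markov hC0 hδ (f := fun n => ∑ t ∈ F, ind (c t (rs S n (sp t))) *
    (nn (rs S n (sp t))) ^ (-θ)) (fun n _ => sum_nonneg fun t _ => hterm n t)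
    (core_gen sp S c W hW0 hW hD hX F) Q ?_
  intro n hn hnQ
  obtain ⟨h1, h2, h3⟩ := hYG n hnQ
  have hY0 : 0 < Y n := by linarith
  have hsub : G n ⊆ F := by
    rw [hF]
    exact Finset.subset_biUnion_of_mem G hn
  have e1 : ∑ t ∈ G n, (Y n) ^ (-θ) ≤ ∑ t ∈ F, ind (c t (rs S n (sp t))) *
      (nn (rs S n (sp t))) ^ (-θ) := by
    refine le_trans (sum_le_sum fun t ht => ?_)
      (Finset.sum_le_sum_of_subset_of_nonneg hsub fun t _ _ => hterm n t)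
    rw [ind_pos (h2 t ht).1, one_mul]
    exact Real.rpow_le_rpow_of_nonpos (nn_pos _) (h2 t ht).2 (by linarith)
  refine le_trans ?_ e1
  rw [sum_const, nsmul_eq_mul, Real.rpow_neg hY0.le, ← div_eq_mul_inv,
    le_div_iff₀ (Real.rpow_pos_of_pos hY0 _)]
  exact h3.le

theorem inv_mul_le {x y θ : ℝ} (hx : 1 ≤ x) (hy : 1 ≤ y) (hθ : θ ≤ 1) :
    x⁻¹ * y ^ (-θ) ≤ (x * y) ^ (-θ) := by
  have hx0 : 0 < x := by linarith
  have hy0 : 0 < y := by linarith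
  rw [Real.mul_rpow hx0.le hy0.le]
  refine mul_le_mul_of_nonneg_right ?_ (by positivity)
  rw [← Real.rpow_neg_one]
  exact Real.rpow_le_rpow_of_exponent_le hx (by linarith)

variable {q : ℕ}

/-- absorbing the number of subsets -/
theorem two_pow_sum (K : Type) [Field K] [NumberField K] {T : Type} (sp : T → Finset (Pr K))
    {θ θ' D : ℝ} (h : θ' < θ) (hD : 0 < D)
    (hb : ∀ F : Finset T, ∑ t ∈ F, (nn (sp t)) ^ (-θ') ≤ D) :
    ∃ D' : ℝ, 0 < D' ∧ ∀ F : Finset T, ∑ t ∈ F, 2 ^ (sp t).card * (nn (sp t)) ^ (-θ) ≤ D' := by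
  obtain ⟨C, hC, hp⟩ := pow_card_le K 2 (by norm_num) (θ - θ') (by linarith)
  refine ⟨C * D, by positivity, fun F => ?_⟩
  have h1 : ∀ t ∈ F, 2 ^ (sp t).card * (nn (sp t)) ^ (-θ) ≤ C * (nn (sp t)) ^ (-θ') := by
    intro t _
    have hn := nn_pos (sp t)
    calc _ ≤ C * (nn (sp t)) ^ (θ - θ') * (nn (sp t)) ^ (-θ) :=
          mul_le_mul_of_nonneg_right (hp _) (by positivity)
      _ = C * (nn (sp t)) ^ (-θ') := by
          rw [mul_assoc, ← Real.rpow_add hn]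
          ring_nf
  refine (sum_le_sum h1).trans ?_
  rw [← mul_sum]
  exact mul_le_mul_of_nonneg_left (hb F) hC.le

/-- **All points.** -/
theorem all_points (hq : 3 ≤ q) (A : Fin q → Projectivization K (Fin 2 → K))
    (hA : Function.Injective A) (S : Finset (Pr K)) {θ : ℝ} (hθ : 2 / (q : ℝ) < θ)
    (hθ1 : θ ≤ 1) : ∃ C : ℝ, 0 < C ∧ ∀ X : ℕ, 1 ≤ X → ∀ δ : ℝ, 0 < δ →
    prop K X {n | ∃ Y : ℝ, 1 ≤ Y ∧ ∃ G : Finset (Off A),
      (∀ P ∈ G, nn (rs S n (spA A P)) ≤ Y) ∧ C / δ * Y ^ θ < (G.card : ℝ)} ≤ δ := by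
  have hq0 : (0 : ℝ) < q := by exact_mod_cast (by omega : 0 < q)
  have hθ0 : 0 < θ := lt_trans (by positivity) hθ
  obtain ⟨D, hD, hb⟩ := off_dec hq A hA ((2 / q + θ) / 2) (by linarith)
  obtain ⟨D', hD', hb'⟩ := two_pow_sum K (spA A) (θ := θ) (by linarith) hD hb
  refine ⟨idC K * nn S * D', mul_pos (mul_pos idC_pos (nn_pos S)) hD', fun X hX δ hδ => ?_⟩
  have h1 := count_gen (spA A) S hθ0.le (fun _ _ => True) (fun P => (nn (spA A P)) ^ (-θ))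
    (fun P => Real.rpow_nonneg (nn_pos _).le _) (fun P A' R hAR _ => by
      rw [hAR]
      exact inv_mul_le (one_le_nn _) (one_le_nn _) hθ1) hD' hb' hX hδ
  simp only [true_and] at h1
  exact h1

end Pool.Agent.Y911.US
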