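import Mathlib
import Pool.Agent.Y911.US.Core
import Pool.Agent.Y728.AK.QPts

/-!
The points where the inequality fails, for most sets of primes.
-/

set_option autoImplicit false

namespace Pool.Agent.Y911.US

open NumberField IsDedekindDomain Finset Pool.Agent.H691R3 Pool.Agent.TH876.Loc
open Pool.Agent.Y911.RR
open Pool.Agent.TH876.KR (form counting)

variable {K : Type} [Field K] [NumberField K] {q : ℕ}

/-- the height (relative to `K`) -/
noncomputable def ht (P : Projectivization K (Fin 2 → K)) : ℝ := Height.logHeight P.rep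

theorem ht_nonneg (P : Projectivization K (Fin 2 → K)) : 0 ≤ ht P := Height.logHeight_nonneg _

/-- the number of the exceptional points for all primes -/
theorem exc_count (hq : 3 ≤ q) (A : Fin q → Projectivization K (Fin 2 → K))
    (hA : Function.Injective A) {M : ℝ} (hM : 1 / (q : ℝ) < M) :
    ∃ ν C : ℝ, 0 < ν ∧ ν ≤ 1 / q ∧ 0 < C ∧ ∀ X : ℝ, 1 ≤ X → ∀ F : Finset (Off A),
      (∀ P ∈ F, M * Real.log (nn (spA A P)) ≤ ht P.1) → (∀ P ∈ F, nn (spA A P) ≤ X) →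
      (F.card : ℝ) ≤ C * X ^ (2 / (q : ℝ) - ν) := by
  classical
  have ha : ∀ i j, i ≠ j → form (A i).rep (A j).rep ≠ 0 :=
    fun i j hij => form_rep_ne fun h => hij (hA h)
  obtain ⟨ν, C, hν, hνq, hC, hb⟩ := Pool.Agent.Y728.AK.line_exc K ∅ Set.finite_empty q hq
    (fun l => (A l).rep) ha hM
  obtain ⟨C2, hC2⟩ := Pool.Agent.Y728.line_final K ∅ Set.finite_empty q hq
    (fun l => (A l).rep) ha 1 one_pos
  refine ⟨ν, C, hν, hνq, hC, fun X hX F h1 h2 => ?_⟩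
  have hfin : (Pool.Agent.Y728.AK.ExcQ ∅ (fun l => (A l).rep) M X).Finite :=
    (hC2 X hX).1.subset (Pool.Agent.Y728.AK.ExcQ_sub ∅ _ M X)
  have hsub : ((F.image fun P => P.1 : Finset (Projectivization K (Fin 2 → K))) : Set _) ⊆
      Pool.Agent.Y728.AK.ExcQ ∅ (fun l => (A l).rep) M X := by
    intro p hp
    obtain ⟨P, hP, rfl⟩ := mem_image.1 (mem_coe.1 hp)
    refine ⟨P.1.rep, P.1.rep_nonzero, P.1.mk_rep.symm, fun i => form_rep_ne (P.2 i).symm, ?_, ?_⟩
    · rw [counting_eq, Real.exp_log (nn_pos _)]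
      exact h2 P hP
    · rw [counting_eq]
      exact h1 P hP
  have h3 := Set.ncard_le_ncard hsub hfin
  have hinj : Function.Injective fun P : Off A => P.1 := fun a b hab => Subtype.ext hab
  rw [Set.ncard_coe_finset, card_image_of_injective F hinj] at h3
  exact le_trans (by exact_mod_cast h3) (hb X hX)

/-- **The exceptional points.** -/
theorem exc_points (hq : 3 ≤ q) (A : Fin q → Projectivization K (Fin 2 → K))
    (hA : Function.Injective A) (S : Finset (Pr K)) {ε C₁ : ℝ} (hε : 0 < ε) :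
    ∃ ν C : ℝ, 0 < ν ∧ ν ≤ 1 / q ∧ 0 < C ∧ ∀ X : ℕ, 1 ≤ X → ∀ δ : ℝ, 0 < δ →
    prop K X {n | ∃ Y : ℝ, 1 ≤ Y ∧ ∃ G : Finset (Off A),
      (∀ P ∈ G, Real.log (nn (rs S n (spA A P))) + C₁ < ((q : ℝ) - ε) * ht P.1 ∧
        nn (rs S n (spA A P)) ≤ Y) ∧ C / δ * Y ^ (2 / (q : ℝ) - ν) < (G.card : ℝ)} ≤ δ := by
  classical
  have hq3 : (3 : ℝ) ≤ q := by exact_mod_cast hq
  obtain ⟨e, he⟩ : ∃ e : ℝ, e = min ε 1 := ⟨_, rfl⟩
  have he0 : 0 < e := by rw [he]; exact lt_min hε one_pos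
  have he1 : e ≤ ε := by rw [he]; exact min_le_left _ _
  have he2 : e ≤ 1 := by rw [he]; exact min_le_right _ _
  have hqe : 0 < (q : ℝ) - e / 2 := by linarith
  obtain ⟨M, hMdef⟩ : ∃ M : ℝ, M = 1 / ((q : ℝ) - e / 2) := ⟨_, rfl⟩
  have hM : 1 / (q : ℝ) < M := by
    rw [hMdef]
    exact one_div_lt_one_div_of_lt hqe (by linarith)
  obtain ⟨κ, hκdef⟩ : ∃ κ : ℝ, κ = e / 2 / ((q : ℝ) - e / 2) := ⟨_, rfl⟩
  have hκ0 : 0 < κ := by rw [hκdef]; positivity
  have hκM : ((q : ℝ) - e) * M = 1 - κ := by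
    rw [hMdef, hκdef, mul_one_div, eq_sub_iff_add_eq, ← add_div, div_eq_one_iff_eq hqe.ne']
    ring
  obtain ⟨ν₀, C₀, hν₀, hν₀q, hC₀, hcount⟩ := exc_count hq A hA hM
  have h2q : 2 / (q : ℝ) ≤ 2 / 3 := div_le_div_of_nonneg_left (by norm_num) (by norm_num) hq3
  have h1q : 0 < 1 / (q : ℝ) := by positivity
  have h21 : 2 / (q : ℝ) = 2 * (1 / q) := by ring
  obtain ⟨μ, hμ⟩ : ∃ μ : ℝ, μ = min ν₀ (κ * (1 - 2 / q)) / 4 := ⟨_, rfl⟩
  have hκq : 0 < κ * (1 - 2 / q) := mul_pos hκ0 (by linarith)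
  have hμ0 : 0 < μ := by
    rw [hμ]
    have := lt_min hν₀ hκq
    positivity
  have hμ1 : 4 * μ ≤ ν₀ := by
    rw [hμ]
    have := min_le_left ν₀ (κ * (1 - 2 / q))
    linarith
  have hμ2 : 4 * μ ≤ κ * (1 - 2 / q) := by
    rw [hμ]
    have := min_le_right ν₀ (κ * (1 - 2 / q))
    linarith
  obtain ⟨θ, hθ⟩ : ∃ θ : ℝ, θ = 2 / (q : ℝ) - μ := ⟨_, rfl⟩
  have hθ0 : 0 < θ := by rw [hθ]; linarith
  have hθ1 : θ ≤ 1 := by rw [hθ]; linarith
  obtain ⟨θ₂, hθ₂⟩ : ∃ θ₂ : ℝ, θ₂ = θ + κ * (1 - θ) := ⟨_, rfl⟩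
  have hθ₂q : 2 / (q : ℝ) < θ₂ := by
    rw [hθ₂, hθ]
    have : κ * (1 - 2 / q) ≤ κ * (1 - (2 / (q : ℝ) - μ)) :=
      mul_le_mul_of_nonneg_left (by linarith) hκ0.le
    linarith
  -- the two sums
  obtain ⟨D₁, hD₁, hb₁⟩ := dyadic_sum
    (T := {P : Off A // M * Real.log (nn (spA A P)) ≤ ht P.1}) (fun t => nn (spA A t.1))
    (fun t => one_le_nn _) (α := 2 / (q : ℝ) - ν₀) (θ := 2 / (q : ℝ) - 2 * μ) (C := C₀)
    (by linarith) (by linarith) hC₀ (fun X hX F hF => by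
      have h1 := hcount X hX (F.image fun t => t.1)
        (fun P hP => by
          obtain ⟨t, _, rfl⟩ := mem_image.1 hP
          exact t.2)
        (fun P hP => by
          obtain ⟨t, ht', rfl⟩ := mem_image.1 hP
          exact hF t ht')
      rw [card_image_of_injective F Subtype.val_injective] at h1
      exact h1)
  obtain ⟨D₁', hD₁', hb₁'⟩ := two_pow_sum K
    (T := {P : Off A // M * Real.log (nn (spA A P)) ≤ ht P.1}) (fun t => spA A t.1)
    (θ := θ) (θ' := 2 / (q : ℝ) - 2 * μ) (by rw [hθ]; linarith) hD₁ hb₁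
  obtain ⟨D₂, hD₂, hb₂⟩ := off_dec hq A hA ((2 / q + θ₂) / 2) (by linarith)
  obtain ⟨D₂', hD₂', hb₂'⟩ := two_pow_sum K (spA A) (θ := θ₂) (by linarith) hD₂ hb₂
  obtain ⟨E, hE⟩ : ∃ E : ℝ, E = Real.exp (-(C₁ * (1 - θ))) := ⟨_, rfl⟩
  have hE0 : 0 < E := by rw [hE]; exact Real.exp_pos _
  obtain ⟨W, hW⟩ : ∃ W : Off A → ℝ, W = fun P =>
      ind (M * Real.log (nn (spA A P)) ≤ ht P.1) * (nn (spA A P)) ^ (-θ) +
        E * (nn (spA A P)) ^ (-θ₂) := ⟨_, rfl⟩
  have hW0 : ∀ P, 0 ≤ W P := fun P => by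
    rw [hW]
    exact add_nonneg (ind_mul_nonneg (Real.rpow_nonneg (nn_pos _).le _) _)
      (mul_nonneg hE0.le (Real.rpow_nonneg (nn_pos _).le _))
  refine ⟨μ, idC K * nn S * (D₁' + E * D₂'), hμ0, by linarith,
    mul_pos (mul_pos idC_pos (nn_pos S)) (by positivity), fun X hX δ hδ => ?_⟩
  rw [← hθ]
  refine count_gen (spA A) S hθ0.le (fun P R => Real.log (nn R) + C₁ < ((q : ℝ) - ε) * ht P.1)
    W hW0 ?_ (by positivity) ?_ hX hδ
  · intro P A' R hAR hc
    have hA' := nn_pos A'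
    have hR := nn_pos R
    have hs := nn_pos (spA A P)
    by_cases hexc : M * Real.log (nn (spA A P)) ≤ ht P.1
    · have h1 : (nn A')⁻¹ * (nn R) ^ (-θ) ≤ (nn (spA A P)) ^ (-θ) := by
        rw [hAR]
        exact inv_mul_le (one_le_nn _) (one_le_nn _) hθ1
      rw [hW]
      simp only
      rw [ind_pos hexc, one_mul]
      have h2 : 0 ≤ E * (nn (spA A P)) ^ (-θ₂) :=
        mul_nonneg hE0.le (Real.rpow_nonneg hs.le _)
      linarith
    · rw [not_le] at hexc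
      have h1 : Real.log (nn (spA A P)) = Real.log (nn A') + Real.log (nn R) := by
        rw [hAR, Real.log_mul hA'.ne' hR.ne']
      have hqe' : 0 < (q : ℝ) - e := by linarith
      have h2 : Real.log (nn R) + C₁ < ((q : ℝ) - e) * ht P.1 := by
        refine lt_of_lt_of_le hc (mul_le_mul_of_nonneg_right (by linarith) (ht_nonneg _))
      have h3 : ((q : ℝ) - e) * ht P.1 ≤ (1 - κ) * Real.log (nn (spA A P)) := by
        rw [← hκM, mul_assoc]
        exact mul_le_mul_of_nonneg_left hexc.le hqe'.le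
      have h4 : κ * Real.log (nn (spA A P)) + C₁ ≤ Real.log (nn A') := by
        linarith
      have h5 : (nn A')⁻¹ * (nn R) ^ (-θ) ≤ E * (nn (spA A P)) ^ (-θ₂) := by
        rw [← Real.exp_log hA', ← Real.exp_neg, Real.rpow_def_of_pos hR,
          Real.rpow_def_of_pos hs, hE, ← Real.exp_add, ← Real.exp_add,
          Real.exp_le_exp, hθ₂]
        have h6 : 0 ≤ 1 - θ := by linarith
        have h7 := mul_le_mul_of_nonneg_left h4 h6
        nlinarith
      rw [hW]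
      simp only
      have h6 : 0 ≤ ind (M * Real.log (nn (spA A P)) ≤ ht P.1) * (nn (spA A P)) ^ (-θ) :=
        ind_mul_nonneg (Real.rpow_nonneg hs.le _) _
      linarith
  · intro F
    have h1 : ∑ P ∈ F, 2 ^ (spA A P).card * W P =
        ∑ P ∈ F, 2 ^ (spA A P).card *
          (ind (M * Real.log (nn (spA A P)) ≤ ht P.1) * (nn (spA A P)) ^ (-θ)) +
        E * ∑ P ∈ F, 2 ^ (spA A P).card * (nn (spA A P)) ^ (-θ₂) := by
      rw [mul_sum, ← sum_add_distrib]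
      refine sum_congr rfl fun P _ => ?_
      rw [hW]
      ring
    rw [h1]
    refine add_le_add ?_ (mul_le_mul_of_nonneg_left (hb₂' F) hE0.le)
    have h2 : ∑ P ∈ F, 2 ^ (spA A P).card *
          (ind (M * Real.log (nn (spA A P)) ≤ ht P.1) * (nn (spA A P)) ^ (-θ)) =
        ∑ P ∈ F.filter (fun P => M * Real.log (nn (spA A P)) ≤ ht P.1),
          2 ^ (spA A P).card * (nn (spA A P)) ^ (-θ) := by
      rw [sum_filter]
      refine sum_congr rfl fun P _ => ?_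
      by_cases h : M * Real.log (nn (spA A P)) ≤ ht P.1
      · rw [ind_pos h, one_mul, if_pos h]
      · rw [ind_neg h, zero_mul, mul_zero, if_neg h]
    rw [h2]
    have h3 := hb₁' (F.subtype fun P => M * Real.log (nn (spA A P)) ≤ ht P.1)
    rw [Finset.sum_subtype_eq_sum_filter (f := fun P : Off A =>
      2 ^ (spA A P).card * (nn (spA A P)) ^ (-θ))] at h3
    exact h3

end Pool.Agent.Y911.US
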