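import Pool.Agent.Y911.US.Main

/-! The first main theorem on the projective line, and the proximity form of the exceptional set. -/

set_option autoImplicit false

namespace Pool.Agent.Y911.US

open NumberField IsDedekindDomain Finset Pool.Agent.H691R3 Pool.Agent.TH876.Loc
open Pool.Agent.TH876.KR (form m2 localHeight localHeight_eq localHeight_nonneg
  log_Nv_pos' Good good_finite m2_of_good)
open Pool.Agent.Y730.QP (cnt supp_finite term_nonneg)

variable {K : Type} [Field K] [NumberField K] {q : ℕ}

/-- maximum at an infinite place -/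
noncomputable def i2 (w : InfinitePlace K) (x : Fin 2 → K) : ℝ := max (w (x 0)) (w (x 1))

theorem iSup_two (f : Fin 2 → ℝ) : (⨆ i, f i) = max (f 0) (f 1) := by
  apply le_antisymm
  · apply ciSup_le
    intro i
    fin_cases i
    · exact le_max_left _ _
    · exact le_max_right _ _
  · exact max_le (le_ciSup (Set.finite_range f).bddAbove 0)
      (le_ciSup (Set.finite_range f).bddAbove 1)

omit [NumberField K] in
theorem ne_or {x : Fin 2 → K} (hx : x ≠ 0) : x 0 ≠ 0 ∨ x 1 ≠ 0 := by
  by_contra h
  push Not at h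
  apply hx
  funext i
  fin_cases i
  · exact h.1
  · exact h.2

theorem i2_pos (w : InfinitePlace K) {x : Fin 2 → K} (hx : x ≠ 0) : 0 < i2 w x := by
  unfold i2
  rcases ne_or hx with h | h
  · exact lt_max_of_lt_left (InfinitePlace.pos_iff.2 h)
  · exact lt_max_of_lt_right (InfinitePlace.pos_iff.2 h)

theorem m2_pos' (v : Pr K) {x : Fin 2 → K} (hx : x ≠ 0) : 0 < m2 v x := by
  unfold m2
  rcases ne_or hx with h | h
  · exact lt_max_of_lt_left ((fv v).pos h)
  · exact lt_max_of_lt_right ((fv v).pos h)

theorem finprod_pos' {ι : Type*} {f : ι → ℝ} (h : ∀ i, 0 < f i) : 0 < ∏ᶠ i, f i :=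
  finprod_induction (fun t => 0 < t) one_pos (fun _ _ h1 h2 => mul_pos h1 h2) h

theorem logHeight_two {x : Fin 2 → K} (hx : x ≠ 0) :
    Height.logHeight x = ∑ w : InfinitePlace K, (w.mult : ℝ) * Real.log (i2 w x) +
      ∑ᶠ v : Pr K, Real.log (m2 v x) := by
  have e1 : (∏ w : InfinitePlace K, (⨆ i, w (x i)) ^ w.mult) =
      ∏ w : InfinitePlace K, (i2 w x) ^ w.mult := by
    refine Finset.prod_congr rfl fun w _ => ?_
    rw [iSup_two (fun i => w (x i))]
    rfl
  have e2 : (∏ᶠ v : FinitePlace K, ⨆ i, v (x i)) = ∏ᶠ v : Pr K, m2 v x := by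
    rw [← finprod_comp_equiv FinitePlace.equivHeightOneSpectrum.symm]
    refine finprod_congr fun v => ?_
    rw [iSup_two (fun i => (FinitePlace.equivHeightOneSpectrum.symm v) (x i))]
    rfl
  rw [Height.logHeight_eq_log_mulHeight, NumberField.mulHeight_eq hx, e1, e2,
    Real.log_mul (Finset.prod_pos fun w _ => pow_pos (i2_pos w hx) _).ne'
      (finprod_pos' fun v => m2_pos' v hx).ne',
    Real.log_prod fun w _ => (pow_pos (i2_pos w hx) _).ne',
    Real.log_finprod fun v => m2_pos' v hx]
  congr 1
  exact Finset.sum_congr rfl fun w _ => Real.log_pow _ _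

theorem prod_formula {D : K} (hD : D ≠ 0) :
    ∑ w : InfinitePlace K, (w.mult : ℝ) * Real.log (w D) + ∑ᶠ v : Pr K, Real.log (fv v D) = 0 := by
  have h := NumberField.prod_abs_eq_one hD
  have e2 : (∏ᶠ v : FinitePlace K, v D) = ∏ᶠ v : Pr K, fv v D := by
    rw [← finprod_comp_equiv FinitePlace.equivHeightOneSpectrum.symm]
    rfl
  have hw : ∀ w : InfinitePlace K, 0 < w D := fun w => InfinitePlace.pos_iff.2 hD
  rw [e2] at h
  have h2 := congrArg Real.log h
  rw [Real.log_one, Real.log_mul (Finset.prod_pos fun w _ => pow_pos (hw w) _).ne'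
      (finprod_pos' fun v => (fv v).pos hD).ne',
    Real.log_prod fun w _ => (pow_pos (hw w) _).ne',
    Real.log_finprod fun v => (fv v).pos hD] at h2
  rw [← h2]
  congr 1
  exact Finset.sum_congr rfl fun w _ => (Real.log_pow _ _).symm

theorem supp_m2 {x : Fin 2 → K} (hx : x ≠ 0) :
    (Function.support fun v : Pr K => Real.log (m2 v x)).Finite := by
  refine (good_finite x).subset fun v hv => ?_
  intro h
  rw [Function.mem_support, m2_of_good hx h, Real.log_one] at hv
  exact hv rfl

theorem supp_fv {D : K} (hD : D ≠ 0) :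
    (Function.support fun v : Pr K => Real.log (fv v D)).Finite := by
  refine (fv_support_finite hD).subset fun v hv => ?_
  intro h
  rw [Function.mem_support] at hv
  apply hv
  have h' : fv v D = 1 := h
  rw [h', Real.log_one]

/-- the first main theorem for one point -/
theorem fmt_one {a x : Fin 2 → K} (ha : a ≠ 0) (hx : x ≠ 0) (h : form a x ≠ 0) :
    ∑ w : InfinitePlace K, (w.mult : ℝ) * Real.log (i2 w a * i2 w x / w (form a x)) +
      ∑ᶠ v : Pr K, localHeight v a x = Height.logHeight x + Height.logHeight a := by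
  have e1 : ∀ w : InfinitePlace K, (w.mult : ℝ) * Real.log (i2 w a * i2 w x / w (form a x)) =
      (w.mult : ℝ) * Real.log (i2 w x) + (w.mult : ℝ) * Real.log (i2 w a) -
        (w.mult : ℝ) * Real.log (w (form a x)) := by
    intro w
    rw [Real.log_div (mul_pos (i2_pos w ha) (i2_pos w hx)).ne' (InfinitePlace.pos_iff.2 h).ne',
      Real.log_mul (i2_pos w ha).ne' (i2_pos w hx).ne']
    ring
  have e2 : ∀ v : Pr K, localHeight v a x =
      (Real.log (m2 v x) + Real.log (m2 v a)) - Real.log (fv v (form a x)) := by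
    intro v
    rw [localHeight_eq, Real.log_div (mul_pos (m2_pos' v ha) (m2_pos' v hx)).ne'
      ((fv v).pos h).ne', Real.log_mul (m2_pos' v ha).ne' (m2_pos' v hx).ne']
    ring
  simp_rw [e1, e2]
  rw [finsum_sub_distrib (((supp_m2 hx).union (supp_m2 ha)).subset
      (Function.support_add _ _)) (supp_fv h),
    finsum_add_distrib (supp_m2 hx) (supp_m2 ha), Finset.sum_sub_distrib, Finset.sum_add_distrib,
    logHeight_two hx, logHeight_two ha]
  have := prod_formula h
  linarith

/-- the local Weil function with respect to the absolute value `p` -/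
noncomputable def lam (p : K → ℝ) (a x : Fin 2 → K) : ℝ :=
  Real.log (max (p (x 0)) (p (x 1)) * max (p (a 0)) (p (a 1)) / p (x 0 * a 1 - x 1 * a 0))

/-- the proximity function for the primes of `T` and the infinite places -/
noncomputable def prox (T : Set (Pr K)) (α : Fin q → Fin 2 → K) (x : Fin 2 → K) : ℝ :=
  (∑ w : InfinitePlace K, (w.mult : ℝ) * ∑ l : Fin q, lam w (α l) x +
    ∑ᶠ (v : Pr K) (_ : v ∈ T), ∑ l : Fin q, lam (FinitePlace.mk v) (α l) x) /
      (Module.finrank ℚ K : ℝ)

theorem lam_inf (w : InfinitePlace K) (a x : Fin 2 → K) :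
    lam w a x = Real.log (i2 w a * i2 w x / w (form a x)) := by
  have e : x 0 * a 1 - x 1 * a 0 = -form a x := by
    unfold form
    ring
  unfold lam i2
  rw [e, mul_comm (max (w (x 0)) (w (x 1)))]
  congr 2
  exact w.1.map_neg _

theorem lam_fin (v : Pr K) (a x : Fin 2 → K) :
    lam (FinitePlace.mk v) a x = localHeight v a x := by
  have e : x 0 * a 1 - x 1 * a 0 = -form a x := by
    unfold form
    ring
  have e2 : FinitePlace.mk v (x 0 * a 1 - x 1 * a 0) = FinitePlace.mk v (form a x) := by
    rw [e]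
    exact (FinitePlace.mk v).1.map_neg _
  unfold lam
  rw [e2, mul_comm (max (FinitePlace.mk v (x 0)) (FinitePlace.mk v (x 1)))]
  rfl

/-- truncated counting function plus proximity function at most `q h(x) + O(1)` -/
theorem fmt_le (T : Set (Pr K)) {α : Fin q → Fin 2 → K} (ha : ∀ i, α i ≠ 0) {x : Fin 2 → K}
    (hx0 : x ≠ 0) (hx : ∀ i, form (α i) x ≠ 0) :
    trunc T α x + prox T α x ≤ (q : ℝ) * height x +
      (∑ l : Fin q, Height.logHeight (α l)) / (Module.finrank ℚ K : ℝ) := by
  classical
  have hd : (0 : ℝ) < Module.finrank ℚ K := by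
    exact_mod_cast (Module.finrank_pos (R := ℚ) (M := K))
  have hfin := supp_finite ha hx0 hx
  obtain ⟨V, hV⟩ : ∃ V : Finset (Pr K), V = hfin.toFinset := ⟨_, rfl⟩
  have hmem : ∀ v, v ∉ V → ∀ i, localHeight v (α i) x = 0 := by
    intro v hv i
    by_contra hcon
    apply hv
    rw [hV, Set.Finite.mem_toFinset]
    exact ⟨i, hcon⟩
  have k1 : cnt T α x = ∑ v ∈ V,
      if v ∉ T then ∑ i, min (localHeight v (α i) x) (Real.log (Nv v)) else 0 := by
    unfold cnt
    rw [finsum_eq_sum_of_support_subset (s := V)]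
    · exact sum_congr rfl fun v _ => finsum_eq_if
    · intro v hv
      rw [Function.mem_support] at hv
      by_contra hcon
      apply hv
      have h0 := hmem v hcon
      rw [finsum_eq_if]
      split_ifs
      · rfl
      · refine sum_eq_zero fun i _ => ?_
        rw [h0 i]
        exact min_eq_left (log_Nv_pos' v).le
  have k2 : (∑ᶠ (v : Pr K) (_ : v ∈ T), ∑ l : Fin q, lam (FinitePlace.mk v) (α l) x) =
      ∑ v ∈ V, if v ∈ T then ∑ i, localHeight v (α i) x else 0 := by
    rw [finsum_eq_sum_of_support_subset (s := V)]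
    · refine sum_congr rfl fun v _ => ?_
      rw [finsum_eq_if]
      simp_rw [lam_fin]
    · intro v hv
      rw [Function.mem_support] at hv
      by_contra hcon
      apply hv
      have h0 := hmem v hcon
      rw [finsum_eq_if]
      split_ifs
      · refine sum_eq_zero fun i _ => ?_
        rw [lam_fin, h0 i]
      · rfl
  have k3 : ∀ i, (∑ᶠ v : Pr K, localHeight v (α i) x) = ∑ v ∈ V, localHeight v (α i) x := by
    intro i
    apply finsum_eq_sum_of_support_subset
    intro v hv
    rw [Function.mem_support] at hv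
    by_contra hcon
    exact hv (hmem v hcon i)
  have k4 : ∑ w : InfinitePlace K, (w.mult : ℝ) * ∑ l : Fin q, lam w (α l) x =
      ∑ l : Fin q, ∑ w : InfinitePlace K, (w.mult : ℝ) *
        Real.log (i2 w (α l) * i2 w x / w (form (α l) x)) := by
    rw [Finset.sum_comm]
    refine sum_congr rfl fun w _ => ?_
    rw [Finset.mul_sum]
    refine sum_congr rfl fun l _ => ?_
    rw [lam_inf]
  have k5 : cnt T α x + ∑ v ∈ V, (if v ∈ T then ∑ i, localHeight v (α i) x else 0) ≤
      ∑ l : Fin q, ∑ v ∈ V, localHeight v (α l) x := by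
    rw [k1, ← Finset.sum_add_distrib, Finset.sum_comm]
    refine sum_le_sum fun v _ => ?_
    by_cases hv : v ∈ T
    · simp [hv]
    · simp only [hv, not_false_eq_true, if_true, if_false, add_zero]
      exact sum_le_sum fun i _ => min_le_left _ _
  have k6 : ∑ l : Fin q, (∑ w : InfinitePlace K, (w.mult : ℝ) *
        Real.log (i2 w (α l) * i2 w x / w (form (α l) x)) + ∑ v ∈ V, localHeight v (α l) x) =
      (q : ℝ) * Height.logHeight x + ∑ l : Fin q, Height.logHeight (α l) := by
    have : ∀ l : Fin q, (∑ w : InfinitePlace K, (w.mult : ℝ) *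
        Real.log (i2 w (α l) * i2 w x / w (form (α l) x)) + ∑ v ∈ V, localHeight v (α l) x) =
        Height.logHeight x + Height.logHeight (α l) := by
      intro l
      rw [← k3 l]
      exact fmt_one (ha l) hx0 (hx l)
    simp_rw [this]
    rw [Finset.sum_add_distrib, Finset.sum_const, Finset.card_univ, Fintype.card_fin,
      nsmul_eq_mul]
  have k7 : (Module.finrank ℚ K : ℝ) * (trunc T α x + prox T α x) ≤
      (q : ℝ) * Height.logHeight x + ∑ l : Fin q, Height.logHeight (α l) := by
    rw [mul_add, trunc_eq]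
    unfold prox
    rw [mul_div_cancel₀ _ hd.ne', k2, k4, ← k6, Finset.sum_add_distrib]
    linarith
  have k8 : (Module.finrank ℚ K : ℝ) * ((q : ℝ) * height x +
      (∑ l : Fin q, Height.logHeight (α l)) / (Module.finrank ℚ K : ℝ)) =
      (q : ℝ) * Height.logHeight x + ∑ l : Fin q, Height.logHeight (α l) := by
    unfold height
    field_simp
  rw [← k8] at k7
  exact le_of_mul_le_mul_left k7 hd

/-- the points where the proximity function is large are exceptions -/
theorem prox_sub (T : Set (Pr K)) {α : Fin q → Fin 2 → K} (ha : ∀ i, α i ≠ 0) (ε B Y : ℝ) :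
    {P | ∃ (x : Fin 2 → K) (hx : x ≠ 0), P = Projectivization.mk K x hx ∧
      (∀ l, x 0 * α l 1 - x 1 * α l 0 ≠ 0) ∧ trunc T α x ≤ Real.log Y ∧
      ε * height x + B < prox T α x} ⊆
    Exceptions T α ε
      (B - (∑ l : Fin q, Height.logHeight (α l)) / (Module.finrank ℚ K : ℝ)) Y := by
  rintro P ⟨x, hx, e, h1, h2, h3⟩
  refine ⟨x, hx, e, h1, h2, ?_⟩
  have := fmt_le T ha hx ((form_iff α x).1 h1)
  linarith

end Pool.Agent.Y911.US
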