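import Mathlib
import Pool.Agent.Y911.US.Exc
import Pool.Agent.Y911.RR.Main
import Pool.Agent.Y730.QP

/-!
Vojta's inequality for almost all points of the projective line, uniformly in the set of primes for
most sets of primes.
-/

set_option autoImplicit false

namespace Pool.Agent.Y911.US

open NumberField IsDedekindDomain Finset Pool.Agent.H691R3 Pool.Agent.TH876.Loc
open Pool.Agent.Y911.RR (Off spA meet_mk ids ind fin_ids mem_ids mem_spA meet_comm adj)
open Pool.Agent.TH876.KR (form m2 localHeight localHeight_pos_iff localHeight_nonneg log_nn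
  log_Nv_pos')
open Pool.Agent.Y730.QP (cnt supp_finite term_nonneg counting_le PQ)

section Defs

variable {K : Type} [Field K] [NumberField K]

/-- the absolute logarithmic height -/
noncomputable def height (x : Fin 2 → K) : ℝ :=
  Height.logHeight x / (Module.finrank ℚ K : ℝ)

/-- the sum over the primes `v ∉ T` and over `l` of the truncated local heights -/
noncomputable def trunc (T : Set (HeightOneSpectrum (𝓞 K))) {q : ℕ} (α : Fin q → Fin 2 → K)
    (x : Fin 2 → K) : ℝ :=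
  ∑ᶠ (v : HeightOneSpectrum (𝓞 K)) (_ : v ∉ T), ∑ l : Fin q,
    min
      (Real.log
          (max (FinitePlace.mk v (x 0)) (FinitePlace.mk v (x 1)) *
            max (FinitePlace.mk v (α l 0)) (FinitePlace.mk v (α l 1)) /
            FinitePlace.mk v (x 0 * α l 1 - x 1 * α l 0)) /
        (Module.finrank ℚ K : ℝ))
      (Real.log (Ideal.absNorm v.asIdeal : ℝ) / (Module.finrank ℚ K : ℝ))

/-- the points with a small sum -/
def Points (T : Set (HeightOneSpectrum (𝓞 K))) {q : ℕ} (α : Fin q → Fin 2 → K) (Y : ℝ) :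
    Set (Projectivization K (Fin 2 → K)) :=
  {P | ∃ (x : Fin 2 → K) (hx : x ≠ 0), P = Projectivization.mk K x hx ∧
    (∀ l, x 0 * α l 1 - x 1 * α l 0 ≠ 0) ∧ trunc T α x ≤ Real.log Y}

/-- the points where the inequality fails -/
def Exceptions (T : Set (HeightOneSpectrum (𝓞 K))) {q : ℕ} (α : Fin q → Fin 2 → K)
    (ε C Y : ℝ) : Set (Projectivization K (Fin 2 → K)) :=
  {P | ∃ (x : Fin 2 → K) (hx : x ≠ 0), P = Projectivization.mk K x hx ∧
    (∀ l, x 0 * α l 1 - x 1 * α l 0 ≠ 0) ∧ trunc T α x ≤ Real.log Y ∧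
    trunc T α x + C < ((q : ℝ) - ε) * height x}

end Defs

variable {K : Type} [Field K] [NumberField K] {q : ℕ}

theorem trunc_eq (T : Set (Pr K)) (α : Fin q → Fin 2 → K)
    (x : Fin 2 → K) : (Module.finrank ℚ K : ℝ) * trunc T α x = cnt T α x := by
  classical
  have hd : (0 : ℝ) < Module.finrank ℚ K := by exact_mod_cast (Module.finrank_pos (R := ℚ) (M := K))
  unfold trunc cnt
  rw [mul_finsum]
  refine finsum_congr fun v => ?_
  rw [finsum_eq_if, finsum_eq_if]
  split_ifs with hv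
  · rw [mul_zero]
  rw [Finset.mul_sum]
  refine Finset.sum_congr rfl fun l _ => ?_
  rw [mul_min_of_nonneg _ _ hd.le, mul_div_cancel₀ _ hd.ne', mul_div_cancel₀ _ hd.ne']
  have e : x 0 * α l 1 - x 1 * α l 0 = -form (α l) x := by
    unfold form
    ring
  have e2 : FinitePlace.mk v (x 0 * α l 1 - x 1 * α l 0) = FinitePlace.mk v (form (α l) x) := by
    rw [e]
    exact (FinitePlace.mk v).1.map_neg _
  rw [e2, mul_comm (max (FinitePlace.mk v (x 0)) (FinitePlace.mk v (x 1)))]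
  rfl

omit [NumberField K] in
theorem form_iff (α : Fin q → Fin 2 → K) (x : Fin 2 → K) :
    (∀ l, x 0 * α l 1 - x 1 * α l 0 ≠ 0) ↔ ∀ i, form (α i) x ≠ 0 := by
  refine forall_congr' fun l => ?_
  have e : x 0 * α l 1 - x 1 * α l 0 = -form (α l) x := by
    unfold form
    ring
  rw [e, Ne, neg_eq_zero]

theorem points_eq (T : Set (Pr K)) (α : Fin q → Fin 2 → K) (X : ℝ)
    (hX : 1 ≤ X) : Points T α X = PQ T α (X ^ (Module.finrank ℚ K : ℝ)) := by
  have hd : (0 : ℝ) < Module.finrank ℚ K := by exact_mod_cast (Module.finrank_pos (R := ℚ) (M := K))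
  ext P
  constructor
  · rintro ⟨x, hx, e, h1, h2⟩
    refine ⟨x, hx, e, (form_iff α x).1 h1, ?_⟩
    rw [← trunc_eq, Real.log_rpow (by linarith)]
    exact mul_le_mul_of_nonneg_left h2 hd.le
  · rintro ⟨x, hx, e, h1, h2⟩
    refine ⟨x, hx, e, (form_iff α x).2 h1, ?_⟩
    rw [← trunc_eq, Real.log_rpow (by linarith)] at h2
    exact le_of_mul_le_mul_left h2 hd

theorem cnt_mono {S S' : Set (Pr K)} (h : S ⊆ S') {a : Fin q → Fin 2 → K} {x : Fin 2 → K}
    (ha : ∀ i, a i ≠ 0) (hx0 : x ≠ 0) (hx : ∀ i, form (a i) x ≠ 0) :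
    cnt S' a x ≤ cnt S a x := by
  classical
  have hfin := supp_finite ha hx0 hx
  have key : ∀ T : Set (Pr K), cnt T a x = ∑ v ∈ hfin.toFinset,
      if v ∉ T then ∑ i, min (localHeight v (a i) x) (Real.log (Nv v)) else 0 := by
    intro T
    unfold cnt
    rw [finsum_eq_sum_of_support_subset (s := hfin.toFinset)]
    · exact sum_congr rfl fun v _ => finsum_eq_if
    · intro v hv
      rw [Function.mem_support] at hv
      by_contra hcon
      apply hv
      rw [Set.Finite.coe_toFinset] at hcon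
      have h0 : ∀ i, localHeight v (a i) x = 0 := by
        intro i
        by_contra hi
        exact hcon ⟨i, hi⟩
      rw [finsum_eq_if]
      split_ifs
      · rfl
      · refine sum_eq_zero fun i _ => ?_
        rw [h0 i]
        exact min_eq_left (log_Nv_pos' v).le
  rw [key, key]
  refine sum_le_sum fun v _ => ?_
  have hnn : 0 ≤ ∑ i, min (localHeight v (a i) x) (Real.log (Nv v)) :=
    sum_nonneg fun i _ => term_nonneg v (hx i)
  by_cases hv' : v ∉ S'
  · rw [if_pos hv', if_pos fun h' => hv' (h h')]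
  · rw [if_neg hv']
    split_ifs
    · exact le_rfl
    · exact hnn

theorem trunc_mono {S S' : Set (Pr K)} (h : S ⊆ S') {a : Fin q → Fin 2 → K} {x : Fin 2 → K}
    (ha : ∀ i, a i ≠ 0) (hx0 : x ≠ 0) (hx : ∀ i, form (a i) x ≠ 0) :
    trunc S' a x ≤ trunc S a x := by
  have hd : (0 : ℝ) < Module.finrank ℚ K := by exact_mod_cast (Module.finrank_pos (R := ℚ) (M := K))
  have h1 := cnt_mono h ha hx0 hx
  rw [← trunc_eq, ← trunc_eq] at h1
  exact le_of_mul_le_mul_left h1 hd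

/-- the points of the divisor -/
def dvs (α : Fin q → Fin 2 → K) (h : ∀ l, α l ≠ 0) (l : Fin q) :
    Projectivization K (Fin 2 → K) := Projectivization.mk K (α l) (h l)

omit [NumberField K] in
theorem mk_ne {x y : Fin 2 → K} (hx : x ≠ 0) (hy : y ≠ 0) (h : form y x ≠ 0) :
    Projectivization.mk K x hx ≠ Projectivization.mk K y hy := by
  intro h0
  rw [Projectivization.mk_eq_mk_iff'] at h0
  obtain ⟨a, ha⟩ := h0
  apply h
  rw [← ha]
  unfold form
  simp only [Pi.smul_apply, smul_eq_mul]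
  ring

/-- the point -/
def offp {α : Fin q → Fin 2 → K} (h : ∀ l, α l ≠ 0) {x : Fin 2 → K} (hx : x ≠ 0)
    (hf : ∀ i, form (α i) x ≠ 0) : Off (dvs α h) :=
  ⟨Projectivization.mk K x hx, fun l => mk_ne hx (h l) (hf l)⟩

theorem ht_mk {x : Fin 2 → K} (hx : x ≠ 0) :
    ht (Projectivization.mk K x hx) = Height.logHeight x := by
  obtain ⟨a, ha⟩ := Projectivization.exists_smul_eq_mk_rep K x hx
  unfold ht
  rw [← ha]
  exact Height.logHeight_smul_eq_logHeight x a.ne_zero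

theorem log_rs {α : Fin q → Fin 2 → K} (h : ∀ l, α l ≠ 0) {x : Fin 2 → K} (hx : x ≠ 0)
    (hf : ∀ i, form (α i) x ≠ 0) (S : Finset (Pr K)) (n : Ideal (𝓞 K)) :
    Real.log (nn (rs S n (spA (dvs α h) (offp h hx hf)))) =
      Pool.Agent.TH876.KR.counting (adj (S : Set (Pr K)) n) α x := by
  classical
  unfold Pool.Agent.TH876.KR.counting
  rw [log_nn, ← finsum_mem_coe_finset]
  refine finsum_mem_congr ?_ fun v _ => rfl
  have hm : ∀ v : Pr K, v ∈ spA (dvs α h) (offp h hx hf) ↔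
      0 < ∑ i, localHeight v (α i) x := by
    intro v
    rw [mem_spA]
    have hl : ∀ l, Pool.Agent.Y911.RR.Meet v (offp h hx hf).1 (dvs α h l) ↔
        0 < localHeight v (α l) x := by
      intro l
      rw [meet_comm]
      show Pool.Agent.Y911.RR.Meet v (Projectivization.mk K (α l) (h l))
        (Projectivization.mk K x hx) ↔ _
      rw [meet_mk, localHeight_pos_iff v (hf l)]
    simp only [hl]
    constructor
    · rintro ⟨l, hl⟩
      exact Finset.sum_pos' (fun i _ => localHeight_nonneg v (hf i)) ⟨l, Finset.mem_univ _, hl⟩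
    · intro hs
      obtain ⟨l, _, hl⟩ := Finset.exists_lt_of_sum_lt (s := univ)
        (f := fun _ : Fin q => (0 : ℝ)) (g := fun i => localHeight v (α i) x) (by simpa using hs)
      exact ⟨l, hl⟩
  ext v
  unfold rs
  rw [mem_coe, mem_filter, hm]
  constructor
  · rintro ⟨h1, h2⟩
    exact ⟨fun h3 => h2 (by
      rcases h3 with h3 | h3
      · exact Or.inl (by simpa using h3)
      · exact Or.inr h3), h1⟩
  · rintro ⟨h1, h2⟩
    exact ⟨h2, fun h3 => h1 (by
      rcases h3 with h3 | h3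
      · exact Or.inl (by simpa using h3)
      · exact Or.inr h3)⟩

theorem log_rs_le {α : Fin q → Fin 2 → K} (h : ∀ l, α l ≠ 0) {x : Fin 2 → K} (hx : x ≠ 0)
    (hf : ∀ i, form (α i) x ≠ 0) (S : Finset (Pr K)) (n : Ideal (𝓞 K)) :
    Real.log (nn (rs S n (spA (dvs α h) (offp h hx hf)))) ≤
      Module.finrank ℚ K * trunc (adj (S : Set (Pr K)) n) α x := by
  rw [log_rs, trunc_eq]
  exact counting_le _ h hx hf

theorem adj_finite {S : Set (Pr K)} (hS : S.Finite) {n : Ideal (𝓞 K)} (hn : n ≠ ⊥) :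
    (adj S n).Finite := hS.union (Pool.Agent.Y911.RR.primes_fin hn)

omit [NumberField K] in
theorem dvs_inj {α : Fin q → Fin 2 → K} (h : ∀ l, α l ≠ 0)
    (hα : ∀ i j, i ≠ j → form (α i) (α j) ≠ 0) : Function.Injective (dvs α h) := by
  intro i j hij
  by_contra hne
  exact mk_ne (h i) (h j) (hα j i (Ne.symm hne)) hij

theorem comp {a C δ Y e ν Z : ℝ} (h : a ≤ C / δ * Y ^ (e - ν)) (hY : 1 ≤ Y)
    (h2 : C / δ ≤ Y ^ (ν / 4)) (h3 : Y ^ (e - ν / 2) ≤ Z) : a ≤ Y ^ (-(ν / 4)) * Z := by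
  have hY0 : 0 < Y := by linarith
  calc a ≤ C / δ * Y ^ (e - ν) := h
    _ ≤ Y ^ (ν / 4) * Y ^ (e - ν) := mul_le_mul_of_nonneg_right h2 (by positivity)
    _ = Y ^ (-(ν / 4)) * Y ^ (e - ν / 2) := by
        rw [← Real.rpow_add hY0, ← Real.rpow_add hY0]
        ring_nf
    _ ≤ _ := mul_le_mul_of_nonneg_left h3 (by positivity)

/-- **Main theorem.** -/
theorem main (S : Set (HeightOneSpectrum (𝓞 K))) (hS : S.Finite) (hq : 3 ≤ q)
    (α : Fin q → Fin 2 → K) (hα : ∀ i j, i ≠ j → α i 0 * α j 1 - α i 1 * α j 0 ≠ 0) :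
    (∀ n : Ideal (𝓞 K), n ≠ ⊥ → ∀ Y : ℝ, 1 ≤ Y → (Points (adj S n) α Y).Finite) ∧
    (∀ η : ℝ, 0 < η →
      (∃ Y₀ : ℝ, ∀ n : Ideal (𝓞 K), n ≠ ⊥ → ∀ Y : ℝ, Y₀ ≤ Y →
        Y ^ (2 * (Module.finrank ℚ K : ℝ) / q - η) ≤ ((Points (adj S n) α Y).ncard : ℝ)) ∧
      ∃ C : ℝ, ∀ X : ℕ, 1 ≤ X → ∀ δ : ℝ, 0 < δ →
        prop K X {n | ∃ Y : ℝ, 1 ≤ Y ∧
          C / δ * Y ^ (2 * (Module.finrank ℚ K : ℝ) / q + η) <
            ((Points (adj S n) α Y).ncard : ℝ)} ≤ δ) ∧
    (∀ ε C₀ : ℝ, 0 < ε → ∃ ν : ℝ, 0 < ν ∧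
      (∃ C : ℝ, ∀ X : ℕ, 1 ≤ X → ∀ δ : ℝ, 0 < δ →
        prop K X {n | ∃ Y : ℝ, 1 ≤ Y ∧
          C / δ * Y ^ (2 * (Module.finrank ℚ K : ℝ) / q - ν) <
            ((Exceptions (adj S n) α ε C₀ Y).ncard : ℝ)} ≤ δ) ∧
      ∀ δ : ℝ, 0 < δ → ∃ Y₁ : ℝ, ∀ X : ℕ, 1 ≤ X →
        prop K X {n | ∃ Y : ℝ, Y₁ ≤ Y ∧
          Y ^ (-ν) * ((Points (adj S n) α Y).ncard : ℝ) <
            ((Exceptions (adj S n) α ε C₀ Y).ncard : ℝ)} ≤ δ) := by
  classical
  obtain ⟨S, rfl⟩ : ∃ S' : Finset (Pr K), (S' : Set (Pr K)) = S := ⟨hS.toFinset, by simp⟩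
  have hd : (0 : ℝ) < Module.finrank ℚ K := by exact_mod_cast (Module.finrank_pos (R := ℚ) (M := K))
  obtain ⟨d, hdd⟩ : ∃ d : ℝ, d = Module.finrank ℚ K := ⟨_, rfl⟩
  rw [← hdd]
  rw [← hdd] at hd
  have hq0 : (3 : ℝ) ≤ q := by exact_mod_cast hq
  have ha0 : ∀ i, α i ≠ 0 := by
    intro i h
    obtain ⟨j, hj⟩ : ∃ j : Fin q, i ≠ j := by
      by_cases h : i = ⟨0, by omega⟩
      · refine ⟨⟨1, by omega⟩, ?_⟩
        rw [h]
        intro h'
        have := congrArg Fin.val h'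
        simp at this
      · exact ⟨_, h⟩
    apply hα i j hj
    rw [h]
    simp
  have hA := dvs_inj ha0 hα
  -- finiteness
  have hfin : ∀ n : Ideal (𝓞 K), n ≠ ⊥ → ∀ Y : ℝ, 1 ≤ Y →
      (Points (adj (S : Set (Pr K)) n) α Y).Finite := by
    intro n hn Y hY
    obtain ⟨C, hC⟩ := Pool.Agent.Y730.QP.upper K _ (adj_finite hS hn) q hq α ha0 hα 1 one_pos
    rw [points_eq _ _ _ hY]
    exact (hC _ (Real.one_le_rpow hY (by rw [← hdd]; exact hd.le))).1
  -- the lower bound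
  have hlow : ∀ η : ℝ, 0 < η → ∃ Y₀ : ℝ, 1 ≤ Y₀ ∧ ∀ n : Ideal (𝓞 K), n ≠ ⊥ → ∀ Y : ℝ, Y₀ ≤ Y →
      Y ^ (2 * d / q - η) ≤ ((Points (adj (S : Set (Pr K)) n) α Y).ncard : ℝ) := by
    intro η hη
    obtain ⟨X0, hX01, hX0⟩ := Pool.Agent.Y730.QP.lower K (S : Set (Pr K)) hS q hq α ha0 hα
      (η / d) (by positivity)
    refine ⟨X0, hX01, fun n hn Y hY => ?_⟩
    have hY1 : 1 ≤ Y := hX01.trans hY
    have hY0 : 0 < Y := by linarith
    have hge : X0 ≤ Y ^ (Module.finrank ℚ K : ℝ) := by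
      refine hY.trans ?_
      have h1 : (1 : ℝ) ≤ Module.finrank ℚ K := by
        exact_mod_cast (Module.finrank_pos (R := ℚ) (M := K))
      calc Y = Y ^ (1 : ℝ) := (Real.rpow_one Y).symm
        _ ≤ _ := Real.rpow_le_rpow_of_exponent_le hY1 h1
    have h2 := hX0 _ hge
    rw [← points_eq _ α Y hY1, ← hdd, ← Real.rpow_mul hY0.le] at h2
    have h3 : Points (S : Set (Pr K)) α Y ⊆ Points (adj (S : Set (Pr K)) n) α Y := by
      rintro P ⟨x, hx, e, hf, hc⟩
      exact ⟨x, hx, e, hf, (trunc_mono (fun v hv => Or.inl hv) ha0 hx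
        ((form_iff α x).1 hf)).trans hc⟩
    have h4 := Set.ncard_le_ncard h3 (hfin n hn Y hY1)
    calc Y ^ (2 * d / q - η) = Y ^ (d * (2 / (q : ℝ) - η / d)) := by
          congr 1
          field_simp
      _ ≤ _ := h2
      _ ≤ _ := by exact_mod_cast h4
  -- the conversion to sets of points off the divisor
  have hconv : ∀ (E : Set (Projectivization K (Fin 2 → K))) (hE : E.Finite)
      (p : Off (dvs α ha0) → Prop), (∀ P ∈ E, ∃ P' : Off (dvs α ha0), P'.1 = P ∧ p P') →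
      ∃ G : Finset (Off (dvs α ha0)), (∀ P ∈ G, p P) ∧ (G.card : ℝ) = (E.ncard : ℝ) := by
    intro E hE p h
    choose f hf1 hf2 using h
    refine ⟨hE.toFinset.attach.image fun P => f P.1 ((hE.mem_toFinset).1 P.2), ?_, ?_⟩
    · intro P hP
      obtain ⟨Q, _, rfl⟩ := mem_image.1 hP
      exact hf2 _ _
    · rw [card_image_of_injective, card_attach, Set.ncard_eq_toFinset_card _ hE]
      intro a b hab
      apply Subtype.ext
      have h1 := hf1 a.1 ((hE.mem_toFinset).1 a.2)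
      have h2 := hf1 b.1 ((hE.mem_toFinset).1 b.2)
      rw [← h1, ← h2]
      exact congrArg Subtype.val hab
  -- the exceptional part
  have hexc : ∀ ε C₀ : ℝ, 0 < ε → ∃ ν : ℝ, 0 < ν ∧
      ∃ C : ℝ, 0 < C ∧ ∀ X : ℕ, 1 ≤ X → ∀ δ : ℝ, 0 < δ →
        prop K X {n | ∃ Y : ℝ, 1 ≤ Y ∧ C / δ * Y ^ (2 * d / q - ν) <
            ((Exceptions (adj (S : Set (Pr K)) n) α ε C₀ Y).ncard : ℝ)} ≤ δ := by
    intro ε C₀ hε
    obtain ⟨ν, C, hν, hνq, hC, hb⟩ := exc_points hq (dvs α ha0) hA S (ε := ε) (C₁ := d * C₀) hε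
    refine ⟨d * ν, by positivity, C, hC, fun X hX δ hδ => ?_⟩
    refine le_trans ?_ (hb X hX δ hδ)
    rw [prop_eq, prop_eq]
    refine av_mono fun n hn => ?_
    have hn0 := (mem_ids.1 hn).1
    refine Pool.Agent.Y911.RR.Sys.ind_le_ind ?_
    rintro ⟨Y, hY, hlt⟩
    have hY0 : 0 < Y := by linarith
    obtain ⟨G, hG1, hG2⟩ := hconv (Exceptions (adj (S : Set (Pr K)) n) α ε C₀ Y)
      ((hfin n hn0 Y hY).subset (by
        rintro P ⟨x, hx, e, h1, h2, _⟩
        exact ⟨x, hx, e, h1, h2⟩))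
      (fun P => Real.log (nn (rs S n (spA (dvs α ha0) P))) + d * C₀ < ((q : ℝ) - ε) * ht P.1 ∧
        nn (rs S n (spA (dvs α ha0) P)) ≤ Y ^ d) (by
        rintro P ⟨x, hx, e, h1, h2, h3⟩
        have hf := (form_iff α x).1 h1
        have h4 := log_rs_le ha0 hx hf S n
        rw [← hdd] at h4
        refine ⟨offp ha0 hx hf, e.symm, ?_, ?_⟩
        · have h5 : ht (offp ha0 hx hf).1 = d * height x := by
            show ht (Projectivization.mk K x hx) = _
            rw [ht_mk]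
            unfold height
            rw [← hdd]
            field_simp
          rw [h5]
          have h6 := mul_lt_mul_of_pos_left h3 hd
          linarith
        · rw [← Real.log_le_log_iff (nn_pos _) (by positivity), Real.log_rpow hY0]
          exact h4.trans (mul_le_mul_of_nonneg_left h2 hd.le))
    refine ⟨Y ^ d, Real.one_le_rpow hY hd.le, G, hG1, ?_⟩
    rw [hG2, ← Real.rpow_mul hY0.le]
    convert hlt using 3
    field_simp
  refine ⟨hfin, fun η hη => ⟨?_, ?_⟩, fun ε C₀ hε => ?_⟩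
  · obtain ⟨Y₀, _, h⟩ := hlow η hη
    exact ⟨Y₀, h⟩
  · obtain ⟨η', hη'⟩ : ∃ η' : ℝ, η' = min (η / d) ((1 - 2 / q) / 2) := ⟨_, rfl⟩
    have h2q : 2 / (q : ℝ) ≤ 2 / 3 := div_le_div_of_nonneg_left (by norm_num) (by norm_num) hq0
    have g1 : η' ≤ η / d := by rw [hη']; exact min_le_left _ _
    have g2 : η' ≤ (1 - 2 / q) / 2 := by rw [hη']; exact min_le_right _ _
    have g3 : 0 < η' := by
      rw [hη']
      exact lt_min (by positivity) (by linarith)
    obtain ⟨C, hC, hb⟩ := all_points hq (dvs α ha0) hA S (θ := 2 / q + η') (by linarith)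
      (by linarith)
    refine ⟨C, fun X hX δ hδ => ?_⟩
    refine le_trans ?_ (hb X hX δ hδ)
    rw [prop_eq, prop_eq]
    refine av_mono fun n hn => ?_
    have hn0 := (mem_ids.1 hn).1
    refine Pool.Agent.Y911.RR.Sys.ind_le_ind ?_
    rintro ⟨Y, hY, hlt⟩
    have hY0 : 0 < Y := by linarith
    obtain ⟨G, hG1, hG2⟩ := hconv (Points (adj (S : Set (Pr K)) n) α Y) (hfin n hn0 Y hY)
      (fun P => nn (rs S n (spA (dvs α ha0) P)) ≤ Y ^ d) (by
        rintro P ⟨x, hx, e, h1, h2⟩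
        have hf := (form_iff α x).1 h1
        have h4 := log_rs_le ha0 hx hf S n
        rw [← hdd] at h4
        refine ⟨offp ha0 hx hf, e.symm, ?_⟩
        rw [← Real.log_le_log_iff (nn_pos _) (by positivity), Real.log_rpow hY0]
        exact h4.trans (mul_le_mul_of_nonneg_left h2 hd.le))
    refine ⟨Y ^ d, Real.one_le_rpow hY hd.le, G, hG1, ?_⟩
    rw [hG2, ← Real.rpow_mul hY0.le]
    refine lt_of_le_of_lt ?_ hlt
    refine mul_le_mul_of_nonneg_left ?_ (by positivity)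
    refine Real.rpow_le_rpow_of_exponent_le hY ?_
    have g4 : d * η' ≤ η := by
      have := mul_le_mul_of_nonneg_left g1 hd.le
      rwa [mul_div_cancel₀ _ hd.ne'] at this
    have g5 : d * (2 / (q : ℝ) + η') = 2 * d / q + d * η' := by ring
    rw [g5]
    linarith
  · obtain ⟨ν, hν, C, hC, hb⟩ := hexc ε C₀ hε
    obtain ⟨Y₀, hY₀1, hY₀⟩ := hlow (ν / 2) (by positivity)
    refine ⟨ν / 4, by positivity, ⟨C, fun X hX δ hδ => ?_⟩, fun δ hδ => ?_⟩
    · refine le_trans ?_ (hb X hX δ hδ)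
      rw [prop_eq, prop_eq]
      refine av_mono fun n hn => ?_
      refine Pool.Agent.Y911.RR.Sys.ind_le_ind ?_
      rintro ⟨Y, hY, hlt⟩
      refine ⟨Y, hY, lt_of_le_of_lt ?_ hlt⟩
      exact mul_le_mul_of_nonneg_left (Real.rpow_le_rpow_of_exponent_le hY (by linarith))
        (by positivity)
    · have htend : Filter.Tendsto (fun Y : ℝ => Y ^ (ν / 4)) Filter.atTop Filter.atTop :=
        tendsto_rpow_atTop (by positivity)
      obtain ⟨Y₂, hY₂⟩ := Filter.eventually_atTop.1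
        (htend.eventually (Filter.eventually_ge_atTop (C / δ)))
      refine ⟨max Y₀ Y₂, fun X hX => ?_⟩
      refine le_trans ?_ (hb X hX δ hδ)
      rw [prop_eq, prop_eq]
      refine av_mono fun n hn => ?_
      have hn0 := (mem_ids.1 hn).1
      refine Pool.Agent.Y911.RR.Sys.ind_le_ind ?_
      rintro ⟨Y, hY, hlt⟩
      have hYa : Y₀ ≤ Y := (le_max_left _ _).trans hY
      have hYb : Y₂ ≤ Y := (le_max_right _ _).trans hY
      have hY1 : 1 ≤ Y := hY₀1.trans hYa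
      refine ⟨Y, hY1, ?_⟩
      by_contra hcon
      rw [not_lt] at hcon
      exact absurd hlt (not_lt.2 (comp hcon hY1 (hY₂ Y hYb) (hY₀ n hn0 Y hYa)))

end Pool.Agent.Y911.US
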