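import Pool.Agent.Y911.US.Fmt

/-! Almost all sets of primes and almost all points: the proximity function is small. -/

set_option autoImplicit false

namespace Pool.Agent.Y911.US

open NumberField IsDedekindDomain Finset Pool.Agent.H691R3 Pool.Agent.TH876.Loc
open Pool.Agent.Y911.RR (ids fin_ids mem_ids adj)

variable {K : Type} [Field K] [NumberField K] {q : ℕ}

/-- the points off the divisor, with a small sum, where `m_S > ε h + B` -/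
def Close (T : Set (Pr K)) (α : Fin q → Fin 2 → K) (ε B Y : ℝ) :
    Set (Projectivization K (Fin 2 → K)) :=
  {P | ∃ (x : Fin 2 → K) (hx : x ≠ 0), P = Projectivization.mk K x hx ∧
    (∀ l, x 0 * α l 1 - x 1 * α l 0 ≠ 0) ∧ trunc T α x ≤ Real.log Y ∧
    ε * height x + B < prox T α x}

theorem prop_mono (X : ℕ) {Q Q' : Set (Ideal (𝓞 K))}
    (h : ∀ n ∈ ids K X, n ∈ Q → n ∈ Q') : prop K X Q ≤ prop K X Q' := by
  classical
  unfold prop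
  apply div_le_div_of_nonneg_right _ (Nat.cast_nonneg _)
  have hs : {n | n ∈ ids K X ∧ n ∈ Q} ⊆ {n | n ∈ ids K X ∧ n ∈ Q'} :=
    fun n hn => ⟨hn.1, h n hn.1 hn.2⟩
  have hf : {n | n ∈ ids K X ∧ n ∈ Q'}.Finite :=
    (ids K X).finite_toSet.subset fun n hn => hn.1
  exact_mod_cast Set.ncard_le_ncard hs hf

theorem ne_zero_of (hq : 3 ≤ q) (α : Fin q → Fin 2 → K)
    (hα : ∀ i j, i ≠ j → α i 0 * α j 1 - α i 1 * α j 0 ≠ 0) : ∀ i, α i ≠ 0 := by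
  intro i h
  obtain ⟨j, hj⟩ : ∃ j : Fin q, i ≠ j := by
    by_cases h : i = ⟨0, by omega⟩
    · refine ⟨⟨1, by omega⟩, ?_⟩
      rw [h]
      intro h'
      have := congrArg Fin.val h'
      simp at this
    · exact ⟨_, h⟩
  apply hα i j hj
  rw [h]
  simp

theorem main2 (S : Set (HeightOneSpectrum (𝓞 K))) (hS : S.Finite) (hq : 3 ≤ q)
    (α : Fin q → Fin 2 → K) (hα : ∀ i j, i ≠ j → α i 0 * α j 1 - α i 1 * α j 0 ≠ 0)
    (ε B : ℝ) (hε : 0 < ε) : ∃ ν : ℝ, 0 < ν ∧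
      (∃ C : ℝ, ∀ X : ℕ, 1 ≤ X → ∀ δ : ℝ, 0 < δ →
        prop K X {n | ∃ Y : ℝ, 1 ≤ Y ∧
          C / δ * Y ^ (2 * (Module.finrank ℚ K : ℝ) / q - ν) <
            ((Close (adj S n) α ε B Y).ncard : ℝ)} ≤ δ) ∧
      ∀ δ : ℝ, 0 < δ → ∃ Y₁ : ℝ, ∀ X : ℕ, 1 ≤ X →
        prop K X {n | ∃ Y : ℝ, Y₁ ≤ Y ∧
          Y ^ (-ν) * ((Points (adj S n) α Y).ncard : ℝ) <
            ((Close (adj S n) α ε B Y).ncard : ℝ)} ≤ δ := by
  obtain ⟨hfin, -, h⟩ := main S hS hq α hα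
  obtain ⟨ν, hν, ⟨C, hC⟩, h2⟩ := h ε
    (B - (∑ l : Fin q, Height.logHeight (α l)) / (Module.finrank ℚ K : ℝ)) hε
  have ha := ne_zero_of hq α hα
  have hle : ∀ n : Ideal (𝓞 K), n ≠ ⊥ → ∀ Y : ℝ, 1 ≤ Y →
      ((Close (adj S n) α ε B Y).ncard : ℝ) ≤ ((Exceptions (adj S n) α ε
        (B - (∑ l : Fin q, Height.logHeight (α l)) / (Module.finrank ℚ K : ℝ)) Y).ncard : ℝ) := by
    intro n hn Y hY
    have hf : (Exceptions (adj S n) α ε
        (B - (∑ l : Fin q, Height.logHeight (α l)) / (Module.finrank ℚ K : ℝ)) Y).Finite := by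
      refine (hfin n hn Y hY).subset ?_
      rintro P ⟨x, hx, e, h1, h2, -⟩
      exact ⟨x, hx, e, h1, h2⟩
    exact_mod_cast Set.ncard_le_ncard (prox_sub (adj S n) ha ε B Y) hf
  refine ⟨ν, hν, ⟨C, fun X hX δ hδ => (prop_mono X ?_).trans (hC X hX δ hδ)⟩, fun δ hδ => ?_⟩
  · rintro n hn ⟨Y, hY, hlt⟩
    exact ⟨Y, hY, hlt.trans_le (hle n (mem_ids.1 hn).1 Y hY)⟩
  · obtain ⟨Y₁, hY₁⟩ := h2 δ hδ
    refine ⟨max Y₁ 1, fun X hX => (prop_mono X ?_).trans (hY₁ X hX)⟩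
    rintro n hn ⟨Y, hY, hlt⟩
    exact ⟨Y, (le_max_left _ _).trans hY,
      hlt.trans_le (hle n (mem_ids.1 hn).1 Y ((le_max_right _ _).trans hY))⟩

end Pool.Agent.Y911.US
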